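import Pool.Agent.H26.MV.ResidualStepFails

/-!
# The residual-type step for unequal-data-demand PIR codes fails

For every finite field `F` of characteristic two, with `q` elements, there are `k ≥ 2` data symbols,
demands `t₁ ≥ ⋯ ≥ t_k ≥ 1` and a linear `q`-ary `(t₁, …, t_k)`-PIR code of some length `n`, while no
linear `q`-ary `(⌈t₂/q⌉, …, ⌈t_k/q⌉)`-PIR code of length `n - t₁` exists.
-/

namespace Pool.Agent.Results.MP_f85992_lc.ResidualStepFails

open Pool.H26.MV.ResidualStepFails

open Matrix

set_option linter.unusedSectionVars false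

/-- **The residual-type step fails for every finite field of characteristic two.** Let `F` be a finite
field of characteristic two with `q` elements. Then there are a number `k + 1 ≥ 2` of data symbols,
demands `t 0 ≥ t 1 ≥ ⋯ ≥ t k ≥ 1` and a length `n` such that a linear `(t 0, …, t k)`-PIR code over
`F` of length `n` exists, but no linear `(⌈t 1 / q⌉, …, ⌈t k / q⌉)`-PIR code over `F` of length
`n - t 0` exists. -/
theorem result (F : Type) [Field F] [Fintype F] [CharP F 2] :
    ∃ (k n : ℕ) (t : Fin (k + 1) → ℕ), 1 ≤ k ∧ Antitone t ∧ (∀ j, 1 ≤ t j) ∧ t 0 ≤ n ∧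
      (∃ G : Matrix (Fin (k + 1)) (Fin n) F, IsPIRCode t G) ∧
      ¬ ∃ G' : Matrix (Fin k) (Fin (n - t 0)) F,
        IsPIRCode (fun j : Fin k => ⌈(t j.succ : ℚ) / (Fintype.card F : ℚ)⌉₊) G' :=
  Pool.H26.MV.ResidualStepFails.result F

end Pool.Agent.Results.MP_f85992_lc.ResidualStepFails
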